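import Pool.Agent.H6.RCQ.Stmts3
import Pool.Agent.H6.RCQ.Util

set_option autoImplicit false

namespace Pool.Agent.H83.RCQ.B10

open Pool.Agent.H39.RC
open Pool.Agent.H6.RCQ
open Classical

theorem U_card {V : Type} {G : SimpleGraph V} {R : Finset V} (x : V) :
    (U G R x).card + (D G R x).card + ir R x = R.card := by
  have h1 : (U G R x).card + (D G R x).card = (R.filter (fun v => v ≠ x)).card := by
    rw [← Finset.card_union_of_disjoint]
    · congr 1
      ext v
      simp only [U, D, Finset.mem_union, Finset.mem_filter]
      constructor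
      · rintro (⟨h1, h2, h3⟩ | ⟨h1, h2⟩)
        · exact ⟨h1, h2⟩
        · exact ⟨h1, h2.ne'⟩
      · rintro ⟨h1, h2⟩
        by_cases h3 : G.Adj x v
        · exact Or.inr ⟨h1, h3⟩
        · exact Or.inl ⟨h1, h2, h3⟩
    · rw [Finset.disjoint_left]
      intro v hv hv'
      simp only [U, D, Finset.mem_filter] at hv hv'
      exact hv.2.2 hv'.2
  rw [h1]
  unfold ir
  split_ifs with hx
  · have : R.filter (fun v => v ≠ x) = R.erase x := by
      ext v
      simp only [Finset.mem_filter, Finset.mem_erase]
      tauto
    rw [this, Finset.card_erase_of_mem hx]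
    have := Finset.card_pos.2 ⟨x, hx⟩
    omega
  · have : R.filter (fun v => v ≠ x) = R := by
      apply Finset.filter_true_of_mem
      intro v hv h
      exact hx (h ▸ hv)
    rw [this, add_zero]

theorem clique_le {V : Type} {G : SimpleGraph V} (pg : PG G) (T : Finset V)
    (h : ∀ u ∈ T, ∀ v ∈ T, u ≠ v → G.Adj u v) : T.card ≤ 4 := by
  by_contra hcon
  obtain ⟨S, hS, hc⟩ := Finset.exists_subset_card_eq (show 5 ≤ T.card by omega)
  let e := (S.equivFinOfCardEq hc).symm
  have hadj : ∀ i j : Fin 5, i < j → G.Adj (e i : V) (e j : V) := by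
    intro i j hij
    apply h _ (hS (e i).2) _ (hS (e j).2)
    intro he
    exact hij.ne (e.injective (Subtype.ext he))
  refine pg.k5 (hasMinor_k5 (fun i => {(e i : V)}) (fun i => con_single _) ?_ ?_)
  · intro i j hij
    rw [Set.disjoint_singleton]
    exact (hadj i j hij).ne
  · intro i j hij
    exact ⟨_, rfl, _, rfl, hadj i j hij⟩

theorem b10 (h1 : B6PStmt) (h2 : B12Stmt) (h3 : BK5Stmt) (h4 : STARStmt) (h5 : GCStmt)
    (h6 : LFStmt) : B10Stmt := by
  intro V G p lab R hC x
  have hL := h6 V G p lab R hC.cfg
  have hne := h4 V G p lab R x hC.two hC.cfg hC.card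
  obtain ⟨hd, hcl⟩ := h1 V G p lab R hC x
  have hUc := U_card (G := G) (R := R) x
  have hcard := hC.card
  have key : ∃ u ∈ U G R x, ∃ v ∈ U G R x, u ≠ v ∧ ¬ G.Adj u v := by
    by_contra hcon
    push Not at hcon
    have hU : (U G R x).card + ir R x ≤ 4 := by
      unfold ir
      split_ifs with hx
      · have := h3 V G R x hL hx hcon
        omega
      · exact clique_le hL.pg _ hcon
    rcases eq_or_lt_of_le hC.two with hp | hp
    · subst hp
      have hD11 : (D G R x).card ≤ 11 := by
        by_contra hD
        have hfil := Finset.card_filter_add_card_filter_not (s := D G R x)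
          (fun v => lab x v = (0 : Fin 2))
        have hfe : (D G R x).filter (fun v => ¬ lab x v = (0 : Fin 2)) =
            (D G R x).filter (fun v => lab x v = (1 : Fin 2)) := by
          apply Finset.filter_congr
          intro v _
          constructor
          · intro h; omega
          · intro h; omega
        rw [hfe] at hfil
        obtain ⟨c0, s0⟩ := hcl 0
        obtain ⟨c1, s1⟩ := hcl 1
        refine h2 V G R x _ _ hL hC.co (Finset.filter_subset _ _) (Finset.filter_subset _ _) ?_
          (by omega) (by omega) (s0 (by omega)) (s1 (by omega)) hne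
        rw [Finset.disjoint_left]
        intro v hv hv'
        rw [Finset.mem_filter] at hv hv'
        have := hv.2.symm.trans hv'.2
        omega
      omega
    · have : p * 3 ≤ p * p := Nat.mul_le_mul_left p hp
      have : p ^ 2 = p * p := sq p
      nlinarith
  refine ⟨?_, key⟩
  by_cases hD : (D G R x).Nonempty
  · obtain ⟨z, z', hz, hz', hcov⟩ := h5 V G R x hL hD key
    have hCC : ∀ z, z ≠ x → (CC G R x z).card ≤ 5 := by
      intro z hz
      have hsub : CC G R x z ⊆ insert z (CN G R x z) := by
        intro t ht
        simp only [CC, Finset.mem_filter] at ht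
        rw [Finset.mem_insert]
        rcases ht.2.2 with h | h
        · exact Or.inl h
        · right
          simp only [CN, Finset.mem_filter]
          exact ⟨ht.1, ht.2.1, h⟩
      have := Finset.card_le_card hsub
      have := Finset.card_insert_le z (CN G R x z)
      have := hC.co x z hz.symm
      omega
    have hsub : D G R x ⊆ CC G R x z ∪ CC G R x z' := by
      intro s hs
      rw [Finset.mem_union]
      exact hcov s hs
    have := Finset.card_le_card hsub
    have := Finset.card_union_le (CC G R x z) (CC G R x z')
    have := hCC z hz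
    have := hCC z' hz'
    omega
  · rw [Finset.not_nonempty_iff_eq_empty] at hD
    rw [hD]; simp

end Pool.Agent.H83.RCQ.B10
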