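import Pool.Agent.H6.RCQ.Stmts3
import Pool.Agent.H6.RCQ.Util

set_option autoImplicit false

namespace Pool.Agent.H83.RCQ.RM2

open Pool.Agent.H39.RC
open Pool.Agent.H6.RCQ
open Classical

theorem rm2 : RM2Stmt := by
  intro V G R x c a1 a2 a3 a4 hL hxc hM hI b hb e he ba2 ba3 ea3 ea2
  obtain ⟨hCN, n12, n13, n14, n23, n24, n34, a12, a34, hmid⟩ := hM
  have h1 : a1 ∈ CN G R x c := by rw [hCN]; simp
  have h2 : a2 ∈ CN G R x c := by rw [hCN]; simp
  have h3 : a3 ∈ CN G R x c := by rw [hCN]; simp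
  have h4 : a4 ∈ CN G R x c := by rw [hCN]; simp
  simp only [CN, Finset.mem_filter] at h1 h2 h3 h4
  obtain ⟨-, xa1, ca1⟩ := h1
  obtain ⟨-, xa2, ca2⟩ := h2
  obtain ⟨-, xa3, ca3⟩ := h3
  obtain ⟨-, xa4, ca4⟩ := h4
  simp only [PB, Finset.mem_filter] at hb he
  obtain ⟨bR, xb, cb, bc⟩ := hb
  obtain ⟨eR, ce, xe, ex⟩ := he
  have hbe : b ≠ e := by rintro rfl; exact xe xb
  obtain ⟨h, hh1, hh2, hx, hc, hh3, hh4⟩ : ∃ h, (b = h ∨ G.Adj b h) ∧ (h = e ∨ G.Adj h e) ∧
      h ≠ x ∧ h ≠ c ∧ h ≠ a2 ∧ h ≠ a3 := by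
    rcases hL.lk b bR e eR hbe with h | ⟨h, -, h4, h5⟩
    · refine ⟨b, Or.inl rfl, Or.inr h, xb.ne', bc, ba2.ne, ?_⟩
      rintro rfl
      exact cb ca3
    · refine ⟨h, Or.inr h4, Or.inr h5, ?_, ?_, ?_, ?_⟩
      · rintro rfl; exact xe h5
      · rintro rfl; exact cb h4.symm
      · rintro rfl; exact ea2 h5.symm
      · rintro rfl; exact ba3 h4
  obtain ⟨u, hu, huh⟩ : ∃ u ∈ II G R x c, u ≠ h := by
    by_contra hcon
    push Not at hcon
    have : (II G R x c).card ≤ 1 := by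
      rw [Finset.card_le_one]
      intro s hs t ht
      rw [hcon s hs, hcon t ht]
    omega
  obtain ⟨ua2, ua3⟩ := hmid u hu
  simp only [II, Finset.mem_filter] at hu
  obtain ⟨uR, ux, uc, xu, cu⟩ := hu
  obtain ⟨a, xa, ca, n2, n3, nh⟩ : ∃ a, G.Adj x a ∧ G.Adj c a ∧ a ≠ a2 ∧ a ≠ a3 ∧ a ≠ h := by
    by_cases hh : h = a1
    · exact ⟨a4, xa4, ca4, n24.symm, n34.symm, hh ▸ n14.symm⟩
    · exact ⟨a1, xa1, ca1, n12, n13, fun h' => hh h'.symm⟩
  have m1 := xa.ne
  have m2 := xa2.ne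
  have m3 := xa3.ne
  have m4 := xb.ne
  have m5 := ca.ne
  have m6 := ca2.ne
  have m7 := ca3.ne
  have m8 := ce.ne
  have m9 : a ≠ u := by rintro rfl; exact xu xa
  have m10 : a ≠ b := by rintro rfl; exact cb ca
  have m11 : a ≠ e := by rintro rfl; exact xe xa
  have m12 : u ≠ a3 := ua3.ne
  have m13 := ba2.ne
  have m14 : a2 ≠ e := by rintro rfl; exact xe xa2
  have m15 : u ≠ b := by rintro rfl; exact xu xb
  have m16 : u ≠ e := by rintro rfl; exact cu ce
  have m17 : a3 ≠ b := by rintro rfl; exact cb ca3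
  have m18 := ea3.ne
  have m19 := n23
  exact no5 hL.pg (A := {x, a}) (B := {c}) (C := {a2, u}) (D := {a3}) (E := {b, h, e})
    (con_pair (Or.inr xa)) (con_single _) (con_pair (Or.inr ua2.symm)) (con_single _)
    (con_three hh1 hh2)
    (by simp only [Set.disjoint_left, Set.mem_insert_iff, Set.mem_singleton_iff]; grind)
    (by simp only [Set.disjoint_left, Set.mem_insert_iff, Set.mem_singleton_iff]; grind)
    (by simp only [Set.disjoint_left, Set.mem_insert_iff, Set.mem_singleton_iff]; grind)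
    (by simp only [Set.disjoint_left, Set.mem_insert_iff, Set.mem_singleton_iff]; grind)
    (by simp only [Set.disjoint_left, Set.mem_insert_iff, Set.mem_singleton_iff]; grind)
    (by simp only [Set.disjoint_left, Set.mem_insert_iff, Set.mem_singleton_iff]; grind)
    (by simp only [Set.disjoint_left, Set.mem_insert_iff, Set.mem_singleton_iff]; grind)
    (by simp only [Set.disjoint_left, Set.mem_insert_iff, Set.mem_singleton_iff]; grind)
    (by simp only [Set.disjoint_left, Set.mem_insert_iff, Set.mem_singleton_iff]; grind)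
    (by simp only [Set.disjoint_left, Set.mem_insert_iff, Set.mem_singleton_iff]; grind) ⟨a, by simp, c, by simp, ca.symm⟩ ⟨x, by simp, a2, by simp, xa2⟩
    ⟨x, by simp, a3, by simp, xa3⟩ ⟨x, by simp, b, by simp, xb⟩ ⟨c, by simp, a2, by simp, ca2⟩
    ⟨c, by simp, a3, by simp, ca3⟩ ⟨c, by simp, e, by simp, ce⟩ ⟨u, by simp, a3, by simp, ua3⟩
    ⟨a2, by simp, b, by simp, ba2.symm⟩ ⟨a3, by simp, e, by simp, ea3.symm⟩

end Pool.Agent.H83.RCQ.RM2
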