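import Pool.Agent.H6.RCQ.Stmts3
import Pool.Agent.H6.RCQ.Util

set_option autoImplicit false

namespace Pool.Agent.H83.RCQ.T8B

open Pool.Agent.H39.RC
open Pool.Agent.H6.RCQ
open Classical

theorem t8_swap {V : Type} {G : SimpleGraph V} {R : Finset V} {x c c' : V} (h : T8 G R x c c') :
    T8 G R x c' c :=
  ⟨h.l, h.deg, h.dx, h.ac', h.ac, h.mc', h.mc, h.ne.symm, h.n', h.n,
    fun s hs => (h.cov s hs).symm⟩

theorem U_card {V : Type} {G : SimpleGraph V} {R : Finset V} (x : V) :
    (U G R x).card + (D G R x).card + ir R x = R.card := by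
  have h1 : (U G R x).card + (D G R x).card = (R.filter (fun v => v ≠ x)).card := by
    rw [← Finset.card_union_of_disjoint]
    · congr 1
      ext v
      simp only [U, D, Finset.mem_union, Finset.mem_filter]
      constructor
      · rintro (⟨h1, h2, h3⟩ | ⟨h1, h2⟩)
        · exact ⟨h1, h2⟩
        · exact ⟨h1, h2.ne'⟩
      · rintro ⟨h1, h2⟩
        by_cases h3 : G.Adj x v
        · exact Or.inr ⟨h1, h3⟩
        · exact Or.inl ⟨h1, h2, h3⟩
    · rw [Finset.disjoint_left]
      intro v hv hv'
      simp only [U, D, Finset.mem_filter] at hv hv'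
      exact hv.2.2 hv'.2
  rw [h1]
  unfold ir
  split_ifs with hx
  · have : R.filter (fun v => v ≠ x) = R.erase x := by
      ext v
      simp only [Finset.mem_filter, Finset.mem_erase]
      tauto
    rw [this, Finset.card_erase_of_mem hx]
    have := Finset.card_pos.2 ⟨x, hx⟩
    omega
  · have : R.filter (fun v => v ≠ x) = R := by
      apply Finset.filter_true_of_mem
      intro v hv h
      exact hx (h ▸ hv)
    rw [this, add_zero]

theorem t8b (h1 : T8AStmt) (h2 : PE1Stmt) (h3 : PE2Stmt) : T8BStmt := by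
  intro V G R x c c' a2 a3 b1 b2 b3 hT ha2 ha3 h23 hc hCN hb12 hb13 hb23 hbb23 hbb21 hc'
  obtain ⟨-, hA2, hA3, hA4, -⟩ := h1 V G R x c c' hT
  obtain ⟨hB1, hB2, -, -, -⟩ := h1 V G R x c' c (t8_swap hT)
  have pg := hT.l.lf.pg
  have hb1 : b1 ∈ CN G R x c' := by rw [hCN]; simp
  have hb2 : b2 ∈ CN G R x c' := by rw [hCN]; simp
  have hb3 : b3 ∈ CN G R x c' := by rw [hCN]; simp
  have hnb1 := hB2 b1 hb1
  have hnb2 := hB2 b2 hb2
  have hna2 := hA2 a2 ha2
  simp only [CN, Finset.mem_filter] at hb1 hb2 hb3 ha2 ha3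
  obtain ⟨b1R, xb1, cb1⟩ := hb1
  obtain ⟨b2R, xb2, cb2⟩ := hb2
  obtain ⟨a2R, xa2, ca2⟩ := ha2
  obtain ⟨a3R, xa3, ca3⟩ := ha3
  have xc := hT.ac
  have xc' := hT.ac'
  have hcc := hT.ne
  have hUmem : ∀ u, u ∈ U G R x ↔ u ∈ R ∧ u ≠ x ∧ ¬ G.Adj x u := by
    intro u; simp [U]
  have e1 : a2 ≠ b1 := by rintro rfl; exact hna2.2 cb1
  have e2 : a2 ≠ b2 := by rintro rfl; exact hna2.2 cb2
  -- poles
  set S : Finset V := insert x (U G R x) with hS
  have hpol : Pol G {c, a2} {c', b2} S := by
    refine ⟨con_pair (Or.inr ca2), con_pair (Or.inr cb2), ?_, ?_, ?_, ?_, ?_⟩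
    · have := hnb2.1
      have := hna2.1
      simp only [Set.disjoint_left, Set.mem_insert_iff, Set.mem_singleton_iff]
      grind
    · intro s hs
      rw [hS, Finset.mem_insert] at hs
      rintro (h | h)
      · rcases hs with hs | hs
        · exact xc.ne (hs ▸ h)
        · exact ((hUmem s).1 hs).2.2 (h ▸ xc)
      · rw [Set.mem_singleton_iff] at h
        rcases hs with hs | hs
        · exact xa2.ne (hs ▸ h)
        · exact ((hUmem s).1 hs).2.2 (h ▸ xa2)
    · intro s hs
      rw [hS, Finset.mem_insert] at hs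
      rintro (h | h)
      · rcases hs with hs | hs
        · exact xc'.ne (hs ▸ h)
        · exact ((hUmem s).1 hs).2.2 (h ▸ xc')
      · rw [Set.mem_singleton_iff] at h
        rcases hs with hs | hs
        · exact xb2.ne (hs ▸ h)
        · exact ((hUmem s).1 hs).2.2 (h ▸ xb2)
    · intro s hs
      rw [hS, Finset.mem_insert] at hs
      rcases hs with hs | hs
      · exact ⟨c, by simp, hs ▸ xc.symm⟩
      · rcases hc s hs with h | h
        · exact ⟨c, by simp, h.symm⟩
        · exact ⟨a2, by simp, h.symm⟩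
    · intro s hs
      rw [hS, Finset.mem_insert] at hs
      rcases hs with hs | hs
      · exact ⟨c', by simp, hs ▸ xc'.symm⟩
      · rcases hc' s hs with h | h
        · exact ⟨c', by simp, h.symm⟩
        · exact ⟨b2, by simp, h.symm⟩
  set X := XX {c, a2} {c', b2} S with hX
  have hXmem : ∀ v, v ∈ X ↔ v = c ∨ v = a2 ∨ v = c' ∨ v = b2 ∨ v = x ∨ v ∈ U G R x := by
    intro v
    simp only [hX, XX, hS, Set.mem_union, Set.mem_insert_iff, Set.mem_singleton_iff,
      Finset.coe_insert, Finset.mem_coe]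
    tauto
  have hb1X : b1 ∉ X := by
    rw [hXmem]
    rintro (h | h | h | h | h | h)
    · exact hnb1.1 h
    · exact e1 h.symm
    · exact cb1.ne h.symm
    · exact hb12 h
    · exact xb1.ne h.symm
    · exact ((hUmem b1).1 h).2.2 xb1
  have hxS : x ∈ S := by rw [hS]; exact Finset.mem_insert_self _ _
  have hUS : ∀ u ∈ U G R x, u ∈ S := fun u hu => by rw [hS]; exact Finset.mem_insert_of_mem hu
  have hlx : Lnk G X b1 x := lnk_adj hb1X xb1.symm
  -- the small set of exceptions
  set Bd := (U G R x).filter (fun s => Lnk G X b1 s ∨ ∃ v ∈ U G R x, Lnk G X b1 v ∧ G.Adj v s)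
    with hBd
  have hBd2 : Bd.card ≤ 2 := by
    by_cases hex : ∃ v ∈ U G R x, Lnk G X b1 v
    · obtain ⟨v', hv', hlv'⟩ := hex
      have hv'x : v' ≠ x := ((hUmem v').1 hv').2.1
      have huniq : ∀ v ∈ U G R x, Lnk G X b1 v → v = v' := by
        intro v hv hlv
        by_contra hne
        exact h2 V G _ _ S pg hpol b1 x v v' hxS (hUS v hv) (hUS v' hv')
          ((hUmem v).1 hv).2.1.symm hv'x.symm hne hlx hlv hlv'
      have hEx : EJ G {c, a2} {c', b2} S v' x := ⟨hUS v' hv', hxS, hv'x, Or.inr ⟨b1, hlv', hlx⟩⟩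
      have hsub : Bd ⊆ insert v' ((U G R x).filter (fun s => G.Adj v' s)) := by
        intro s hs
        rw [hBd, Finset.mem_filter] at hs
        rw [Finset.mem_insert, Finset.mem_filter]
        rcases hs.2 with h | ⟨v, hv, hlv, hvs⟩
        · exact Or.inl (huniq s hs.1 h)
        · right
          rw [huniq v hv hlv] at hvs
          exact ⟨hs.1, hvs⟩
      have hone : ((U G R x).filter (fun s => G.Adj v' s)).card ≤ 1 := by
        rw [Finset.card_le_one]
        intro s hs t ht
        rw [Finset.mem_filter] at hs ht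
        by_contra hne
        exact h3 V G _ _ S pg hpol v' x s t hEx
          (EJ.ofAdj (hUS v' hv') (hUS s hs.1) hs.2) (EJ.ofAdj (hUS v' hv') (hUS t ht.1) ht.2)
          ((hUmem s).1 hs.1).2.1.symm ((hUmem t).1 ht.1).2.1.symm hne
      have := Finset.card_le_card hsub
      have := Finset.card_insert_le v' ((U G R x).filter (fun s => G.Adj v' s))
      omega
    · have : Bd = ∅ := by
        rw [hBd, Finset.filter_eq_empty_iff]
        rintro s hs (h | ⟨v, hv, hlv, -⟩)
        · exact hex ⟨s, hs, h⟩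
        · exact hex ⟨v, hv, hlv⟩
      rw [this]; simp
  -- links to b1
  have hcb1 : ¬ G.Adj c b1 := hnb1.2
  have hlink : ∀ u ∈ U G R x, u ∉ Bd → (G.Adj c' u ∧ True) ∨ (G.Adj a2 u ∧ G.Adj a2 b1) := by
    intro u hu hnot
    obtain ⟨uR, ux, xu⟩ := (hUmem u).1 hu
    have hub1 : u ≠ b1 := by rintro rfl; exact xu xb1
    have hnl : ¬ Lnk G X b1 u := fun h => hnot (by
      rw [hBd, Finset.mem_filter]; exact ⟨hu, Or.inl h⟩)
    rcases hT.l.lf.lk u uR b1 b1R hub1 with h | ⟨h, -, h4, h5⟩
    · exact absurd (lnk_adj hb1X h.symm) hnl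
    · by_cases hhX : h ∈ X
      · rw [hXmem] at hhX
        rcases hhX with e | e | e | e | e | e
        · rw [e] at h5; exact absurd h5 hcb1
        · rw [e] at h4 h5; exact Or.inr ⟨h4.symm, h5⟩
        · rw [e] at h4; exact Or.inl ⟨h4.symm, trivial⟩
        · rw [e] at h5; exact absurd h5 hbb21
        · rw [e] at h4; exact absurd h4.symm xu
        · exact absurd (Finset.mem_filter.2 ⟨hu, Or.inr ⟨h, e, lnk_adj hb1X h5.symm, h4.symm⟩⟩) hnot
      · exact absurd (lnk_cons hb1X h5.symm (lnk_adj hhX h4.symm)) hnl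
  -- u'
  obtain ⟨u', hu'J, hu'B⟩ : ∃ u' ∈ II G R x c', u' ∉ Bd := by
    by_contra hcon
    push Not at hcon
    have := Finset.card_le_card (show II G R x c' ⊆ Bd from hcon)
    omega
  simp only [II, Finset.mem_filter] at hu'J
  obtain ⟨u'R, u'x, -, xu', c'u'⟩ := hu'J
  have hu'U : u' ∈ U G R x := (hUmem u').2 ⟨u'R, u'x, xu'⟩
  have hu' : G.Adj a2 u' ∧ G.Adj a2 b1 := by
    rcases hlink u' hu'U hu'B with h | h
    · exact absurd h.1 c'u'
    · exact h
  have hu'b2 : G.Adj u' b2 := by
    rcases hc' u' hu'U with h | h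
    · exact absurd h.symm c'u'
    · exact h
  -- w
  have hUc := U_card (G := G) (R := R) x
  have hR16 := hT.l.card
  have hdx := hT.dx
  have hw3 : 3 ≤ ((U G R x).filter (fun u => ¬ G.Adj a2 u)).card := by
    have h4 := Finset.card_filter_add_card_filter_not (s := U G R x) (fun u => G.Adj a2 u)
    have hx3 : ({c, a3, b1} : Finset V).card = 3 := by
      have : c ≠ a3 := ca3.ne
      have : a3 ≠ b1 := by rintro rfl; exact hcb1 ca3
      have : c ≠ b1 := hnb1.1.symm
      rw [Finset.card_insert_of_notMem (by simp [*]), Finset.card_insert_of_notMem (by simp [*]),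
        Finset.card_singleton]
    have h5 : ((U G R x).filter (fun u => G.Adj a2 u)).card + 3 + ir R x ≤ 8 := by
      refine le_trans ?_ (hT.deg a2)
      have hsub : ((U G R x).filter (fun u => G.Adj a2 u)) ∪ {c, a3, b1} ∪
          (if x ∈ R then {x} else ∅) ⊆ D G R a2 := by
        intro v hv
        simp only [Finset.mem_union, Finset.mem_filter, Finset.mem_insert,
          Finset.mem_singleton] at hv
        simp only [D, Finset.mem_filter]
        rcases hv with (⟨hv, hv'⟩ | hv | hv | hv) | hv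
        · exact ⟨((hUmem v).1 hv).1, hv'⟩
        · rw [hv]; exact ⟨hT.mc, ca2.symm⟩
        · rw [hv]; exact ⟨a3R, h23⟩
        · rw [hv]; exact ⟨b1R, hu'.2⟩
        · split_ifs at hv with hxR
          · rw [Finset.mem_singleton] at hv
            rw [hv]; exact ⟨hxR, xa2.symm⟩
          · simp at hv
      refine le_trans ?_ (Finset.card_le_card hsub)
      rw [Finset.card_union_of_disjoint, Finset.card_union_of_disjoint, hx3]
      · unfold ir
        split_ifs <;> simp
      · rw [Finset.disjoint_left]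
        intro v hv hv'
        rw [Finset.mem_filter] at hv
        have := ((hUmem v).1 hv.1).2.2
        simp only [Finset.mem_insert, Finset.mem_singleton] at hv'
        rcases hv' with e | e | e
        · exact this (e ▸ xc)
        · exact this (e ▸ xa3)
        · exact this (e ▸ xb1)
      · rw [Finset.disjoint_left]
        intro v hv hv'
        split_ifs at hv' with hxR
        · rw [Finset.mem_singleton] at hv'
          simp only [Finset.mem_union, Finset.mem_filter, Finset.mem_insert,
            Finset.mem_singleton] at hv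
          rcases hv with ⟨hv, -⟩ | hv | hv | hv
          · exact ((hUmem v).1 hv).2.1 hv'
          · exact xc.ne (hv'.symm.trans hv)
          · exact xa3.ne (hv'.symm.trans hv)
          · exact xb1.ne (hv'.symm.trans hv)
        · simp at hv'
    omega
  obtain ⟨w, hwJ, hwB⟩ : ∃ w ∈ (U G R x).filter (fun u => ¬ G.Adj a2 u), w ∉ Bd := by
    by_contra hcon
    push Not at hcon
    have := Finset.card_le_card (show (U G R x).filter (fun u => ¬ G.Adj a2 u) ⊆ Bd from hcon)
    omega
  rw [Finset.mem_filter] at hwJ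
  obtain ⟨hwU, a2w⟩ := hwJ
  obtain ⟨wR, wx, xw⟩ := (hUmem w).1 hwU
  have hwc : G.Adj w c := by
    rcases hc w hwU with h | h
    · exact h
    · exact absurd h.symm a2w
  have hwc' : G.Adj c' w := by
    rcases hlink w hwU hwB with h | h
    · exact h.1
    · exact absurd h.1 a2w
  have n1 : a2 ≠ c' := hna2.1
  have n2 : a2 ≠ w := by rintro rfl; exact xw xa2
  have n3 : u' ≠ c' := by rintro rfl; exact xu' xc'
  have n4 : u' ≠ w := by rintro rfl; exact a2w hu'.1
  have n5 : u' ≠ b1 := by rintro rfl; exact xu' xb1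
  have n6 : u' ≠ c := by rintro rfl; exact xu' xc
  have n7 : u' ≠ b2 := by rintro rfl; exact xu' xb2
  have n8 : w ≠ b1 := by rintro rfl; exact xw xb1
  have n9 : w ≠ c := by rintro rfl; exact xw xc
  have n10 : w ≠ b2 := by rintro rfl; exact xw xb2
  have n11 : b1 ≠ c := hnb1.1
  have n12 : b2 ≠ c := hnb2.1
  have n13 := xc.ne
  have n14 := xc'.ne
  have n15 := xa2.ne
  have n16 := xb1.ne
  have n17 := xb2.ne
  have n18 := ca2.ne
  have n19 := cb1.ne
  have n20 := cb2.ne
  exact no33 pg (A := {x}) (B := {a2, u'}) (C := {c', w}) (D := {b1}) (E := {c}) (F := {b2})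
    (con_single _) (con_pair (Or.inr hu'.1)) (con_pair (Or.inr hwc')) (con_single _)
    (con_single _) (con_single _)
    (by simp only [Set.disjoint_left, Set.mem_insert_iff, Set.mem_singleton_iff]; grind)
    (by simp only [Set.disjoint_left, Set.mem_insert_iff, Set.mem_singleton_iff]; grind)
    (by simp only [Set.disjoint_left, Set.mem_insert_iff, Set.mem_singleton_iff]; grind)
    (by simp only [Set.disjoint_left, Set.mem_insert_iff, Set.mem_singleton_iff]; grind)
    (by simp only [Set.disjoint_left, Set.mem_insert_iff, Set.mem_singleton_iff]; grind)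
    (by simp only [Set.disjoint_left, Set.mem_insert_iff, Set.mem_singleton_iff]; grind)
    (by simp only [Set.disjoint_left, Set.mem_insert_iff, Set.mem_singleton_iff]; grind)
    (by simp only [Set.disjoint_left, Set.mem_insert_iff, Set.mem_singleton_iff]; grind)
    (by simp only [Set.disjoint_left, Set.mem_insert_iff, Set.mem_singleton_iff]; grind)
    (by simp only [Set.disjoint_left, Set.mem_insert_iff, Set.mem_singleton_iff]; grind)
    (by simp only [Set.disjoint_left, Set.mem_insert_iff, Set.mem_singleton_iff]; grind)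
    (by simp only [Set.disjoint_left, Set.mem_insert_iff, Set.mem_singleton_iff]; grind)
    (by simp only [Set.disjoint_left, Set.mem_insert_iff, Set.mem_singleton_iff]; grind)
    (by simp only [Set.disjoint_left, Set.mem_insert_iff, Set.mem_singleton_iff]; grind)
    (by simp only [Set.disjoint_left, Set.mem_insert_iff, Set.mem_singleton_iff]; grind)
    ⟨x, by simp, b1, by simp, xb1⟩ ⟨x, by simp, c, by simp, xc⟩ ⟨x, by simp, b2, by simp, xb2⟩
    ⟨a2, by simp, b1, by simp, hu'.2⟩ ⟨a2, by simp, c, by simp, ca2.symm⟩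
    ⟨u', by simp, b2, by simp, hu'b2⟩ ⟨c', by simp, b1, by simp, cb1⟩
    ⟨w, by simp, c, by simp, hwc⟩ ⟨c', by simp, b2, by simp, cb2⟩

end Pool.Agent.H83.RCQ.T8B
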